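import Pool.Agent.H88.Mult

set_option autoImplicit false

namespace Pool.Agent.Results.MP_d09f5b_an.Q2

open Pool.Agent.H88.Mult MeasureTheory

theorem result {G : Type*} [AddCommGroup G] [TopologicalSpace G] [IsTopologicalAddGroup G]
    [CompactSpace G] [MeasurableSpace G] [BorelSpace G] (μ : Measure G) [μ.IsAddHaarMeasure]
    (p : ENNReal) [Fact (1 ≤ p)] (hp : p ≠ ⊤)
    (B : Type*) [NormedRing B] [NormedAlgebra ℂ B] [CompleteSpace B]
    (ι : multipliers μ p →ₐ[ℂ] B) (hι : Topology.IsClosedEmbedding ι) (T : multipliers μ p) :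
    spectrum ℂ T = spectrum ℂ (ι T) :=
  permanence_of (A := multipliers μ p) (isUnit_of hp) ι hι.isEmbedding T

end Pool.Agent.Results.MP_d09f5b_an.Q2
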